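import Mathlib
import Pool.Agent.H60.Sample
import Pool.Agent.H42.ST.Gowers

/-!
# Collinear or general-position subsets of planar point sets: the order of magnitude

Joint work of three seats: the Szemerédi–Trotter bound for rich lines and the geometric reduction
(`Pool.Agent.H42.ST`, which use the Borsuk–Ulam theorem of `Pool.Agent.H64`), and the
semi-random (sampling and nibble) part (`Pool.Agent.H60.Sample` and `Pool.Agent.H60.Greedy`).
-/

set_option autoImplicit false

namespace Pool.Agent.Results.MP_b446ae_co.OrderOfMagnitude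

/-- The Euclidean plane. -/
abbrev Plane : Type := EuclideanSpace ℝ (Fin 2)

/-- General position: no three different points of `Q` lie on a common line. -/
def GenPos (Q : Finset Plane) : Prop :=
  ∀ a ∈ Q, ∀ b ∈ Q, ∀ c ∈ Q, a ≠ b → b ≠ c → a ≠ c → ¬ Collinear ℝ ({a, b, c} : Set Plane)

/-- Every set of `N` points of the plane contains `n` collinear points or `n` points in general
position. -/
def Forces (n N : ℕ) : Prop :=
  ∀ P : Finset Plane, P.card = N →
    (∃ Q ⊆ P, Q.card = n ∧ Collinear ℝ (Q : Set Plane)) ∨ (∃ Q ⊆ P, Q.card = n ∧ GenPos Q)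

/-- **The order of magnitude of the function of Erdős and Gowers is `n ^ 2`.**
The least number `N` such that every set of `N` points of the plane contains `n` collinear points
or `n` points in general position lies between two constant multiples of `n ^ 2`. -/
theorem result : ∃ c C : ℝ, 0 < c ∧ 0 < C ∧ ∀ n : ℕ, 3 ≤ n →
    ∃ f : ℕ, IsLeast {N : ℕ | Forces n N} f ∧
      c * (n : ℝ) ^ 2 ≤ (f : ℝ) ∧ (f : ℝ) ≤ C * (n : ℝ) ^ 2 := by
  obtain ⟨c, C, hc, hC, h⟩ := Pool.H42.ST.order_of_magnitude
    (fun A hA => by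
      obtain ⟨c, hc, N0, hN0, h⟩ := Pool.Agent.H60.Greedy.sample_exists A hA
      exact ⟨c, hc, N0, hN0, fun V _ _ L h1 h2 => h V L h1 h2⟩)
  refine ⟨c, C, hc, hC, fun n hn => ?_⟩
  obtain ⟨h1, h2, h3⟩ := h n hn
  exact ⟨Pool.H42.ST.f n, ⟨Nat.sInf_mem (s := {N | Pool.H42.ST.Forces n N}) h1,
    fun N hN => Nat.sInf_le hN⟩, h2, h3⟩

end Pool.Agent.Results.MP_b446ae_co.OrderOfMagnitude
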